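import Mathlib
import Pool.Agent.Q147.CMinGroup
import Pool.Agent.Q147.MinGroup

/-!
# MP_e69082_gt : a c-minimal group with a non-hereditarily-minimal discrete quotient
-/

noncomputable section

namespace Pool.Agent.Results.MP_e69082_gt.CMinimalQuotient

open Set Filter Topology Pool.Agent.Q147.MinGroup Pool.Agent.Q147.CMin

/-- Every closed subgroup of `G` is minimal. -/
def CMinimal (G : Type) [Group G] [TopologicalSpace G] : Prop :=
  ∀ L : Subgroup G, IsClosed (L : Set G) → IsMinimalGroup L

/-- Every subgroup of `G` is minimal in the subspace topology. -/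
def HereditarilyMinimal (G : Type) [Group G] [TopologicalSpace G] : Prop :=
  ∀ H : Subgroup G, IsMinimalGroup H

/-- A continuous injective map is a local homeomorphism on compact sets (a form suited to
neighbourhoods of `1`). -/
theorem exists_nhds_of_compact {L L' : Type} [Group L] [TopologicalSpace L] [Group L']
    [TopologicalSpace L'] [T2Space L'] (ε : L →* L') (hε : Continuous ε)
    (hinj : Function.Injective ε) (K : Set L) (hK : IsCompact K) (V : Set L)
    (hV : V ∈ 𝓝 (1 : L)) : ∃ W ∈ 𝓝 (1 : L'), ∀ x ∈ K, ε x ∈ W → x ∈ V := by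
  obtain ⟨O, hOV, hO, h1O⟩ := mem_nhds_iff.1 hV
  have hcl : IsClosed (ε '' (K \ O)) := ((hK.diff hO).image hε).isClosed
  refine ⟨(ε '' (K \ O))ᶜ, ?_, ?_⟩
  · refine hcl.isOpen_compl.mem_nhds ?_
    rintro ⟨x, ⟨-, hxO⟩, hx1⟩
    have : x = 1 := hinj (by rw [hx1, map_one])
    rw [this] at hxO
    exact hxO h1O
  · intro x hx hxW
    apply hOV
    by_contra hxO
    exact hxW ⟨x, ⟨hx, hxO⟩, rfl⟩

/-- The set of `V`-components of a subgroup. -/
def VL (L : Subgroup G) : AddSubgroup V where
  carrier := {w | ∃ g ∈ L, g.v = w}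
  zero_mem' := ⟨1, L.one_mem, rfl⟩
  add_mem' := by
    rintro _ _ ⟨g, hg, rfl⟩ ⟨h, hh, rfl⟩
    exact ⟨g * h, L.mul_mem hg hh, rfl⟩
  neg_mem' := by
    rintro _ ⟨g, hg, rfl⟩
    exact ⟨g⁻¹, L.inv_mem hg, rfl⟩

/-- Main step: continuous bijective homomorphisms from closed subgroups to Hausdorff groups are
open at `1`. -/
theorem open_at_one (L : Subgroup G) (hL : IsClosed (L : Set G)) {L' : Type} [Group L']
    [TopologicalSpace L'] [IsTopologicalGroup L'] [T2Space L'] (ε : L →* L') (hε : Continuous ε)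
    (hbij : Function.Bijective ε) (U : Set L) (hU : U ∈ 𝓝 (1 : L)) : ε '' U ∈ 𝓝 (1 : L') := by
  by_cases hfin : (VL L : Set V).Finite
  · -- `L` is compact
    have hcpt' : IsCompact (L : Set G) := by
      refine (isCompact_of_finite _ hfin).of_isClosed_subset hL ?_
      intro g hg
      exact ⟨g, hg, rfl⟩
    have hcpt : CompactSpace L := isCompact_iff_compactSpace.1 hcpt'
    have hcl : IsClosedMap ε := hε.isClosedMap
    have hop : IsOpenMap ε :=
      (isHomeomorph_iff_continuous_isClosedMap_bijective.2 ⟨hε, hcl, hbij⟩).isOpenMap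
    have := hop.image_mem_nhds hU
    rwa [map_one] at this
  · have hinf : Infinite (VL L) := by
      rw [← not_finite_iff_infinite]
      exact hfin
    obtain ⟨ψ, hψ0, hψs⟩ := exists_psi (VL L) hinf
    -- the compact subgroup `N ∩ L`
    let K : Set L := {x | x.1.v = 0}
    have hK : IsCompact K := by
      rw [Subtype.isCompact_iff]
      have h1 : (Subtype.val '' K : Set G) = (N : Set G) ∩ L := by
        ext x
        constructor
        · rintro ⟨y, hy, rfl⟩
          exact ⟨hy, y.2⟩
        · rintro ⟨hx, hxL⟩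
          exact ⟨⟨x, hxL⟩, hx, rfl⟩
      rw [h1]
      exact isCompact_N.inter_right hL
    -- the neighbourhood on which `z ψ` vanishes
    have hZ : {x : L | x.1.z ψ = 0} ∈ 𝓝 (1 : L) := by
      refine IsOpen.mem_nhds ?_ rfl
      exact (isOpen_discrete {(0 : ZMod 2)}).preimage
        ((continuous_z ψ).comp continuous_subtype_val)
    obtain ⟨W, hW, hWz⟩ := exists_nhds_of_compact ε hε hbij.1 K hK _ hZ
    -- elements whose commutators with `K` are in `W`
    have hM : ∀ᶠ y : L' in 𝓝 1, ∀ x' ∈ ε '' K, y * x' * y⁻¹ * x'⁻¹ ∈ W := by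
      refine (hK.image hε).eventually_forall_of_forall_eventually ?_
      intro x' _
      have hc : ContinuousAt (fun p : L' × L' => p.1 * p.2 * p.1⁻¹ * p.2⁻¹) (1, x') := by
        fun_prop
      have h2 : W ∈ 𝓝 ((fun p : L' × L' => p.1 * p.2 * p.1⁻¹ * p.2⁻¹) (1, x')) := by
        have : (fun p : L' × L' => p.1 * p.2 * p.1⁻¹ * p.2⁻¹) (1, x') = 1 := by
          simp
        rw [this]; exact hW
      exact hc h2
    -- hence `ε '' K` is a neighbourhood of `1`
    have hKn : ε '' K ∈ 𝓝 (1 : L') := by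
      refine Filter.mem_of_superset hM ?_
      intro y hy
      obtain ⟨g, rfl⟩ := hbij.2 y
      refine ⟨g, ?_, rfl⟩
      -- the commutators have vanishing `z ψ`
      have h3 : ∀ x : L, x ∈ K → wsum (x.1.χ ψ) g.1.v = 0 := by
        intro x hx
        have h4 : ε (g * x * g⁻¹ * x⁻¹) ∈ W := by
          have := hy (ε x) ⟨x, hx, rfl⟩
          simpa only [map_mul, map_inv] using this
        have h5 : g * x * g⁻¹ * x⁻¹ ∈ K := (comm_χ g.1 x.1 ψ).1
        have h6 := hWz _ h5 h4
        have h7 : (g * x * g⁻¹ * x⁻¹ : L).1.z ψ = - wsum (x.1.χ ψ) g.1.v := comm_z g.1 x.1 hx ψ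
        rw [Set.mem_ofPred_eq, h7] at h6
        exact neg_eq_zero.1 h6
      -- apply it to commutators of elements of `L`
      have h8 : ∀ a b : L, ell ψ a.1.v * gam ψ b.1.v g.1.v = ell ψ b.1.v * gam ψ a.1.v g.1.v := by
        intro a b
        obtain ⟨hv, hχ⟩ := comm_χ a.1 b.1 ψ
        have h9 := h3 (a * b * a⁻¹ * b⁻¹) hv
        have h10 : (a * b * a⁻¹ * b⁻¹ : L).1.χ ψ =
            ell ψ a.1.v • gamv ψ b.1.v - ell ψ b.1.v • gamv ψ a.1.v := hχ
        rw [h10, sub_eq_add_neg, ← neg_smul, wsum_add_left, wsum_smul_left, wsum_smul_left,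
          wsum_gamv, wsum_gamv, neg_mul, ← sub_eq_add_neg] at h9
        exact sub_eq_zero.1 h9
      have h11 : ψ g.1.v = 0 := by
        apply key_nondeg
        intro x y
        obtain ⟨_, ⟨a, ha, rfl⟩, rfl⟩ := hψs x
        obtain ⟨_, ⟨b, hb, rfl⟩, rfl⟩ := hψs y
        exact h8 ⟨a, ha⟩ ⟨b, hb⟩
      exact hψ0 _ ⟨g.1, g.2, rfl⟩ h11
    -- conclusion
    obtain ⟨W', hW', hW'U⟩ := exists_nhds_of_compact ε hε hbij.1 K hK U hU
    refine Filter.mem_of_superset (Filter.inter_mem hW' hKn) ?_
    rintro _ ⟨hyW, x, hx, rfl⟩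
    exact ⟨x, hW'U x hx hyW, rfl⟩

theorem cMinimal_G : CMinimal G := by
  intro L hL h
  have key : ∀ (σ : TopologicalSpace L), instTopologicalSpaceSubtype ≤ σ →
      @IsTopologicalGroup L σ _ → @T2Space L σ →
      ∀ U ∈ @nhds L instTopologicalSpaceSubtype 1, U ∈ @nhds L σ 1 := by
    intro σ hle hg h2 U hU
    have h1 := @open_at_one L hL L _ σ hg h2 (MonoidHom.id L)
      (continuous_id_iff_le.2 hle) Function.bijective_id U hU
    have h3 : (MonoidHom.id L) '' U = U := Set.image_id U
    rwa [h3] at h1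
  have hτg : IsTopologicalGroup L := inferInstance
  obtain ⟨σ, hle, hne, hg, h2⟩ := h
  apply hne
  refine (@IsTopologicalGroup.ext_iff L _ σ instTopologicalSpaceSubtype hg hτg).2 ?_
  exact le_antisymm (fun U hU => key σ hle hg h2 U hU) (nhds_mono hle)

/-- The homomorphism from `G ⧸ N` to `(ZMod 2)^ℕ`. -/
def ρ : G ⧸ N →* Multiplicative (ℕ → ZMod 2) :=
  QuotientGroup.lift N
    { toFun := fun g => Multiplicative.ofAdd (fun n => co g.v n)
      map_one' := rfl
      map_mul' := fun g h => by
        rw [← ofAdd_add]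
        rfl }
    (by
      intro g hg
      have hv : g.v = 0 := hg
      change Multiplicative.ofAdd (fun n => co g.v n) = 1
      rw [hv]
      rfl)

theorem ρ_mk (g : G) : ρ (QuotientGroup.mk g) = Multiplicative.ofAdd (fun n => co g.v n) := rfl

theorem ρ_injective : Function.Injective ρ := by
  rw [injective_iff_map_eq_one]
  intro x hx
  obtain ⟨g, rfl⟩ := QuotientGroup.mk_surjective x
  rw [ρ_mk] at hx
  rw [QuotientGroup.eq_one_iff, mem_N]
  apply ext_co
  intro n
  exact congrFun (Multiplicative.ofAdd.injective hx) n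

theorem not_hereditarilyMinimal : ¬ HereditarilyMinimal (G ⧸ N) := by
  intro h
  apply h ⊤
  -- the topology induced by `ρ`
  let r : (⊤ : Subgroup (G ⧸ N)) →* Multiplicative (ℕ → ZMod 2) :=
    ρ.comp (⊤ : Subgroup (G ⧸ N)).subtype
  have hr : Function.Injective r := ρ_injective.comp Subtype.val_injective
  have hcont : Continuous r := by
    have h1 : Continuous ρ := by
      have h2 : Continuous (ρ ∘ (QuotientGroup.mk : G → G ⧸ N)) := by
        have h3 : Continuous fun g : G => (fun n => co g.v n : ℕ → ZMod 2) :=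
          continuous_pi fun n => (continuous_of_discreteTopology (f := fun v : V => co v n)).comp
            continuous_v
        exact continuous_ofAdd.comp h3
      exact (QuotientGroup.isQuotientMap_mk N).continuous_iff.2 h2
    exact h1.comp continuous_subtype_val
  refine ⟨TopologicalSpace.induced r inferInstance, continuous_iff_le_induced.1 hcont, ?_,
    topologicalGroup_induced r, ?_⟩
  · intro heq
    -- the trivial subgroup would be open
    have hdisc : DiscreteTopology (G ⧸ N) := QuotientGroup.discreteTopology isOpen_N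
    have hopen : IsOpen ({1} : Set (⊤ : Subgroup (G ⧸ N))) := isOpen_discrete _
    rw [← heq] at hopen
    obtain ⟨O, hO, hOe⟩ := isOpen_induced_iff.1 hopen
    have h1 : (1 : Multiplicative (ℕ → ZMod 2)) ∈ O := by
      have h2 : (1 : (⊤ : Subgroup (G ⧸ N))) ∈ r ⁻¹' O := by rw [hOe]; rfl
      have h3 : r 1 ∈ O := h2
      rwa [map_one] at h3
    have hO' : IsOpen (Multiplicative.ofAdd ⁻¹' O : Set (ℕ → ZMod 2)) :=
      hO.preimage continuous_ofAdd
    have h1' : (0 : ℕ → ZMod 2) ∈ (Multiplicative.ofAdd ⁻¹' O : Set (ℕ → ZMod 2)) := h1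
    obtain ⟨F, u, hu, hsub⟩ := isOpen_pi_iff.1 hO' _ h1'
    obtain ⟨n, hn⟩ := Infinite.exists_notMem_finset F
    let g : G := ⟨e n, fun _ => 0, fun _ => 0⟩
    let x : (⊤ : Subgroup (G ⧸ N)) := ⟨QuotientGroup.mk g, trivial⟩
    have hx : x ∈ r ⁻¹' O := by
      have h4 : (fun m => co (e n) m) ∈ (Multiplicative.ofAdd ⁻¹' O : Set (ℕ → ZMod 2)) := by
        apply hsub
        intro m hm
        have hmn : n ≠ m := by
          rintro rfl
          exact hn hm
        change co (e n) m ∈ u m
        rw [co_e, if_neg hmn]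
        exact (hu m hm).2
      exact h4
    rw [hOe] at hx
    have h5 : (QuotientGroup.mk g : G ⧸ N) = 1 := congrArg Subtype.val hx
    rw [QuotientGroup.eq_one_iff, mem_N] at h5
    have h6 : co (e n) n = 0 := by
      have : e n = 0 := h5
      rw [this, co_zero]
    rw [co_e, if_pos rfl] at h6
    exact one_ne_zero h6
  · exact @T2Space.of_injective_continuous _ _ (TopologicalSpace.induced r inferInstance)
      _ _ _ hr continuous_induced_dom

/-- There are a (Hausdorff) c-minimal topological group `G` and a compact open normal subgroup `N`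
such that the discrete quotient group `G ⧸ N` is not hereditarily minimal. -/
theorem result : ∃ (G : Type) (_ : Group G) (_ : TopologicalSpace G), IsTopologicalGroup G ∧
    T2Space G ∧ CMinimal G ∧ ∃ (N : Subgroup G) (_ : N.Normal), IsOpen (N : Set G) ∧
      IsCompact (N : Set G) ∧ ¬ HereditarilyMinimal (G ⧸ N) :=
  ⟨G, inferInstance, inferInstance, inferInstance, inferInstance, cMinimal_G, N, inferInstance,
    isOpen_N, isCompact_N, not_hereditarilyMinimal⟩

end Pool.Agent.Results.MP_e69082_gt.CMinimalQuotient
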